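import Pool.Agent.Y244.GP.Fin

/-!
Percolation in a gradient on the square lattice: the edge `e` is open with probability
`1/2 - height e / (2 N)` (cut off at `0` and `1`), so that all edges on the line of height `-N` and
below are open and all edges at height `N` and above are closed. The ground cluster is the cluster
of the line of height `-N`. Its upper boundary (the front) lives at distance `N ^ (4/7)` of the
critical line of height `0`; we obtain the density profile of the ground cluster on all scales,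
and the exact order of the exponential tails, in both directions, for the highest and for the
lowest point of the front above a window.
-/

namespace Pool.Agent.Results.MP_6bd702_pr.GradientFront

open MeasureTheory

/-- The square lattice: two points of `ℤ²` are adjacent when they differ by one in exactly one
coordinate. -/
def Z2 : SimpleGraph (ℤ × ℤ) where
  Adj u v := |u.1 - v.1| + |u.2 - v.2| = 1
  symm := ⟨fun u v h => by rw [abs_sub_comm v.1, abs_sub_comm v.2]; exact h⟩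
  loopless := ⟨fun u h => by simp at h⟩

/-- The height (second coordinate) of the middle of an edge. -/
noncomputable def height (e : Z2.edgeSet) : ℝ :=
  Sym2.lift ⟨fun u v : ℤ × ℤ => ((u.2 : ℝ) + v.2) / 2, fun u v => by ring⟩ e.1

/-- The probability that an edge is open in the gradient: `1/2 - height / (2 N)`, replaced by `0`
if it is negative and by `1` if it is larger than `1`. -/
noncomputable def prob (N : ℕ) (e : Z2.edgeSet) : unitInterval :=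
  Set.projIcc 0 1 zero_le_one (1 / 2 - height e / (2 * N))

/-- Percolation in the gradient: the edges are open (`true`) independently, the edge `e` with
probability `prob N e`. -/
noncomputable def law (N : ℕ) : Measure (Z2.edgeSet → Bool) :=
  Measure.infinitePi (fun e => ProbabilityTheory.bernoulliMeasure true false (prob N e))

/-- The graph of the open edges. -/
def openGraph (ω : Z2.edgeSet → Bool) : SimpleGraph (ℤ × ℤ) :=
  SimpleGraph.fromEdgeSet {e | ∃ h : e ∈ Z2.edgeSet, ω ⟨e, h⟩ = true}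

/-- The ground cluster: the cluster of the point `(0, -N)`, hence of the line of height `-N`
(almost surely all edges of this line are open). -/
def ground (N : ℕ) (ω : Z2.edgeSet → Bool) : Set (ℤ × ℤ) :=
  {v | (openGraph ω).Reachable (0, -(N : ℤ)) v}

/-- The ground cluster has a point of height at least `h` above the window `[a, a + w]`, i.e. the
highest point of the front above the window has height at least `h`. -/
def Reaches (N : ℕ) (a : ℤ) (w h : ℕ) (ω : Z2.edgeSet → Bool) : Prop :=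
  ∃ v ∈ ground N ω, a ≤ v.1 ∧ v.1 ≤ a + w ∧ (h : ℤ) ≤ v.2

/-- A path of the ground cluster crosses the strip `a ≤ x ≤ a + w` from the left to the right
at heights at least `-h`, i.e. the lowest point of the front above the window has height at least
`-h`. -/
def Bridge (N : ℕ) (a : ℤ) (w h : ℕ) (ω : Z2.edgeSet → Bool) : Prop :=
  ∃ u ∈ ground N ω, ∃ v : ℤ × ℤ, u.1 = a ∧ v.1 = a + w ∧
    ∃ p : (openGraph ω).Walk u v, ∀ z ∈ p.support, a ≤ z.1 ∧ z.1 ≤ a + w ∧ -(h : ℤ) ≤ z.2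

/-- `N ^ (4/7) (log N) ^ (3/7)`. -/
noncomputable def extreme (N : ℕ) : ℝ := (N : ℝ) ^ (4 / 7 : ℝ) * Real.log N ^ (3 / 7 : ℝ)

/-- The highest point of the front above `[a, a + w]` has height between `c` and `C` times
`extreme N`, and the lowest one has depth between `c` and `C` times `extreme N`. -/
def Extremes (c C : ℝ) (N : ℕ) (a : ℤ) (w : ℕ) (ω : Z2.edgeSet → Bool) : Prop :=
  (∀ h : ℕ, (h : ℝ) ≤ c * extreme N → Reaches N a w h ω ∧ ¬ Bridge N a w h ω) ∧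
  (∀ h : ℕ, C * extreme N ≤ h → ¬ Reaches N a w h ω ∧ Bridge N a w h ω)

open H974 Pool.Agent.Y244.GP

theorem height_toE (e : Edg) : height (toE e) = hgt e := by
  obtain ⟨x, y, _ | _⟩ := e
  · show ((y : ℝ) + ((y + 1 : ℤ) : ℝ)) / 2 = (if (false = true) then (y : ℝ) else (y : ℝ) + 1 / 2)
    rw [if_neg (by simp)]
    push_cast
    ring
  · show ((y : ℝ) + (y : ℝ)) / 2 = (if (true = true) then (y : ℝ) else (y : ℝ) + 1 / 2)
    rw [if_pos rfl]
    ring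

theorem prob_toE (N : ℕ) (e : Edg) : (prob N (toE e) : ℝ) = Pool.Agent.Y244.GP.gp N e := by
  unfold prob Pool.Agent.Y244.GP.gp
  rw [Set.coe_projIcc, height_toE]

theorem ground_iff (N : ℕ) (ω : Z2.edgeSet → Bool) (v : ℤ × ℤ) :
    v ∈ ground N ω ↔ Reach (opn ω) (0, -(N : ℤ)) v := open_reach ω _ _

theorem reaches_iff (N : ℕ) (a : ℤ) (w h : ℕ) (ω : Z2.edgeSet → Bool) :
    Reaches N a w h ω ↔ Hit N a w h ω := by
  constructor
  · rintro ⟨v, hv, h1⟩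
    exact ⟨v, (ground_iff N ω v).mp hv, h1⟩
  · rintro ⟨v, hv, h1⟩
    exact ⟨v, (ground_iff N ω v).mpr hv, h1⟩

/-- a walk inside a region -/
theorem walk_reach {ω : Z2.edgeSet → Bool} {Q : ℤ × ℤ → Prop} {u v : ℤ × ℤ}
    (p : (openGraph ω).Walk u v) (hp : ∀ z ∈ p.support, Q z) :
    Reach (opn ω ∩ {e | Q (src e) ∧ Q (tgt e)}) u v := by
  induction p with
  | nil => exact Reach.refl _ _
  | @cons u w v hadj p ih =>
    have hu : Q u := hp u (by simp)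
    have hw : Q w := hp w (by simp)
    obtain ⟨e, he, hcase⟩ := (openGraph_adj ω u w).mp hadj
    have h1 : H974.Adj (opn ω ∩ {e | Q (src e) ∧ Q (tgt e)}) u w := by
      refine ⟨e, ⟨he, ?_⟩, hcase⟩
      rcases hcase with ⟨e1, e2⟩ | ⟨e1, e2⟩
      · exact ⟨e1.symm ▸ hu, e2.symm ▸ hw⟩
      · exact ⟨e1.symm ▸ hw, e2.symm ▸ hu⟩
    exact h1.reach.trans (ih (fun z hz => hp z (by simp [hz])))

theorem reach_walk {ω : Z2.edgeSet → Bool} {Q : ℤ × ℤ → Prop} {u v : ℤ × ℤ}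
    (h : Reach (opn ω ∩ {e | Q (src e) ∧ Q (tgt e)}) u v) :
    u = v ∨ ∃ p : (openGraph ω).Walk u v, ∀ z ∈ p.support, Q z := by
  induction h using Relation.ReflTransGen.head_induction_on with
  | refl => exact Or.inl rfl
  | @head u w hadj _ ih =>
    right
    obtain ⟨e, ⟨he, hQ1, hQ2⟩, hcase⟩ := hadj
    have hQ : Q u ∧ Q w := by
      rcases hcase with ⟨e1, e2⟩ | ⟨e1, e2⟩
      · exact ⟨e1 ▸ hQ1, e2 ▸ hQ2⟩
      · exact ⟨e2 ▸ hQ2, e1 ▸ hQ1⟩
    have hA : (openGraph ω).Adj u w := (openGraph_adj ω u w).mpr ⟨e, he, hcase⟩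
    rcases ih with rfl | ⟨p, hp⟩
    · refine ⟨SimpleGraph.Walk.cons hA SimpleGraph.Walk.nil, fun z hz => ?_⟩
      simp only [SimpleGraph.Walk.support_cons, SimpleGraph.Walk.support_nil, List.mem_cons,
        List.not_mem_nil, or_false] at hz
      rcases hz with rfl | rfl
      · exact hQ.1
      · exact hQ.2
    · refine ⟨SimpleGraph.Walk.cons hA p, fun z hz => ?_⟩
      simp only [SimpleGraph.Walk.support_cons, List.mem_cons] at hz
      rcases hz with rfl | hz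
      · exact hQ.1
      · exact hp z hz

theorem bridge_iff (N : ℕ) (a : ℤ) {w : ℕ} (hw : 1 ≤ w) (h : ℕ) (ω : Z2.edgeSet → Bool) :
    Bridge N a w h ω ↔ Br N a w h ω := by
  constructor
  · rintro ⟨u, hu, v, hu1, hv1, p, hp⟩
    exact ⟨u, v, (ground_iff N ω u).mp hu, hu1, hv1, walk_reach p hp⟩
  · rintro ⟨u, v, hu, hu1, hv1, hr⟩
    refine ⟨u, (ground_iff N ω u).mpr hu, v, hu1, hv1, ?_⟩
    rcases reach_walk (Q := fun z : ℤ × ℤ => a ≤ z.1 ∧ z.1 ≤ a + w ∧ -(h : ℤ) ≤ z.2) hr with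
      huv | hp
    · exfalso
      rw [huv, hv1] at hu1
      omega
    · exact hp

theorem w_pos {N : ℕ} (hN : 2 ^ 12 ≤ N) {w : ℕ} (hw : (N : ℝ) ^ (4 / 7 : ℝ) ≤ w) : 1 ≤ w := by
  have h1 : 0 < (N : ℝ) ^ (4 / 7 : ℝ) :=
    Real.rpow_pos_of_pos (by exact_mod_cast (by omega : 0 < N)) _
  have h2 : (0 : ℝ) < w := lt_of_lt_of_le h1 hw
  exact_mod_cast h2

/-- the four estimates -/
def Four (c C : ℝ) (N : ℕ) : Prop :=
      (∀ x y : ℤ, -(N : ℤ) ≤ 2 * y → y ≤ 0 →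
        c * (max (|(y : ℝ)| / N) ((N : ℝ) ^ (-(3 / 7) : ℝ))) ^ (5 / 36 : ℝ) ≤
          (law N).real {ω | (x, y) ∈ ground N ω} ∧
        (law N).real {ω | (x, y) ∈ ground N ω} ≤
          C * (max (|(y : ℝ)| / N) ((N : ℝ) ^ (-(3 / 7) : ℝ))) ^ (5 / 36 : ℝ)) ∧
      (∀ x y : ℤ, 0 ≤ y →
        (4 * y ≤ N → c * (N : ℝ) ^ (-(5 / 84) : ℝ) *
          Real.exp (-(C * ((y : ℝ) / (N : ℝ) ^ (4 / 7 : ℝ)) ^ (7 / 3 : ℝ))) ≤
            (law N).real {ω | (x, y) ∈ ground N ω}) ∧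
        (law N).real {ω | (x, y) ∈ ground N ω} ≤ C * (N : ℝ) ^ (-(5 / 84) : ℝ) *
          Real.exp (-(c * ((y : ℝ) / (N : ℝ) ^ (4 / 7 : ℝ)) ^ (7 / 3 : ℝ)))) ∧
      (∀ (a : ℤ) (w h : ℕ), (N : ℝ) ^ (4 / 7 : ℝ) ≤ w →
        (law N).real {ω | Reaches N a w h ω} ≤ C * (w / (N : ℝ) ^ (4 / 7 : ℝ)) *
          Real.exp (-(c * ((h : ℝ) / (N : ℝ) ^ (4 / 7 : ℝ)) ^ (7 / 3 : ℝ))) ∧
        (4 * h ≤ N → (law N).real {ω | ¬ Reaches N a w h ω} ≤
          Real.exp (-(c * (w / (N : ℝ) ^ (4 / 7 : ℝ)) *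
            Real.exp (-(C * ((h : ℝ) / (N : ℝ) ^ (4 / 7 : ℝ)) ^ (7 / 3 : ℝ))))))) ∧
      (∀ (a : ℤ) (w h : ℕ), (N : ℝ) ^ (4 / 7 : ℝ) ≤ w → h ≤ N →
        (law N).real {ω | ¬ Bridge N a w h ω} ≤ C * (w / (N : ℝ) ^ (4 / 7 : ℝ)) *
          Real.exp (-(c * ((h : ℝ) / (N : ℝ) ^ (4 / 7 : ℝ)) ^ (7 / 3 : ℝ))) ∧
        (4 * h ≤ N → (law N).real {ω | Bridge N a w h ω} ≤
          Real.exp (-(c * (w / (N : ℝ) ^ (4 / 7 : ℝ)) *
            Real.exp (-(C * ((h : ℝ) / (N : ℝ) ^ (4 / 7 : ℝ)) ^ (7 / 3 : ℝ)))))))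

theorem four : ∃ c C : ℝ, 0 < c ∧ 0 < C ∧ ∀ N : ℕ, 2 ^ 12 ≤ N → Four c C N := by
  obtain ⟨c, C, hc, hC, hmain⟩ := gradient_main
  refine ⟨c, C, hc, hC, fun N hN => ?_⟩
  obtain ⟨h1, h2, h3, h4⟩ := hmain N (prob N) hN (prob_toE N)
  have hlaw : law N = ilaw (prob N) := rfl
  have hg : ∀ v : ℤ × ℤ, {ω | v ∈ ground N ω} = Gr N v := by
    intro v
    ext ω
    exact ground_iff N ω v
  refine ⟨?_, ?_, ?_, ?_⟩
  · intro x y hy1 hy2
    rw [hg, hlaw]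
    exact h1 (x, y) hy1 hy2
  · intro x y hy
    rw [hg, hlaw]
    exact h2 (x, y) hy
  · intro a w h hw
    have e1 : {ω | Reaches N a w h ω} = {ω | Hit N a w h ω} := by
      ext ω; exact reaches_iff N a w h ω
    have e2 : {ω | ¬ Reaches N a w h ω} = {ω | ¬ Hit N a w h ω} := by
      ext ω; exact not_congr (reaches_iff N a w h ω)
    rw [e1, e2, hlaw]
    exact h3 a w h hw
  · intro a w h hw hh
    have hw1 := w_pos hN hw
    have e1 : {ω | Bridge N a w h ω} = {ω | Br N a w h ω} := by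
      ext ω; exact bridge_iff N a hw1 h ω
    have e2 : {ω | ¬ Bridge N a w h ω} = {ω | ¬ Br N a w h ω} := by
      ext ω; exact not_congr (bridge_iff N a hw1 h ω)
    rw [e1, e2, hlaw]
    exact h4 a w h hw hh

theorem reaches_anti {N : ℕ} {a : ℤ} {w h h' : ℕ} (hh : h ≤ h') {ω : Z2.edgeSet → Bool}
    (H : Reaches N a w h' ω) : Reaches N a w h ω := by
  obtain ⟨v, hv, h1, h2, h3⟩ := H
  exact ⟨v, hv, h1, h2, le_trans (by exact_mod_cast hh) h3⟩

theorem bridge_mono {N : ℕ} {a : ℤ} {w h h' : ℕ} (hh : h ≤ h') {ω : Z2.edgeSet → Bool}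
    (H : Bridge N a w h ω) : Bridge N a w h' ω := by
  obtain ⟨u, hu, v, h1, h2, p, hp⟩ := H
  refine ⟨u, hu, v, h1, h2, p, fun z hz => ?_⟩
  obtain ⟨h3, h4, h5⟩ := hp z hz
  have : (h : ℤ) ≤ h' := by exact_mod_cast hh
  exact ⟨h3, h4, by omega⟩

theorem ev_small (B : ℝ) : ∀ᶠ N : ℕ in Filter.atTop, B * extreme N + 1 ≤ N := by
  have h1 : Filter.Tendsto (fun N : ℕ => ((N : ℝ)) ^ (3 / 14 : ℝ)) Filter.atTop Filter.atTop :=
    (tendsto_rpow_atTop (by norm_num)).comp tendsto_natCast_atTop_atTop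
  filter_upwards [h1.eventually_ge_atTop (2 * |B| + 1), Filter.eventually_ge_atTop 1] with N hN hN1
  have hN1' : (1 : ℝ) ≤ N := by exact_mod_cast hN1
  have hN0 : (0 : ℝ) < N := by linarith
  have hlog : 0 ≤ Real.log N := Real.log_nonneg hN1'
  have h2 : Real.log N ^ (3 / 7 : ℝ) ≤ 2 * (N : ℝ) ^ (3 / 14 : ℝ) := by
    have h3 : Real.log N ≤ (N : ℝ) ^ (1 / 2 : ℝ) / (1 / 2) :=
      Real.log_le_rpow_div hN0.le (by norm_num)
    calc Real.log N ^ (3 / 7 : ℝ) ≤ ((N : ℝ) ^ (1 / 2 : ℝ) / (1 / 2)) ^ (3 / 7 : ℝ) :=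
          Real.rpow_le_rpow hlog h3 (by norm_num)
      _ = (2 : ℝ) ^ (3 / 7 : ℝ) * (N : ℝ) ^ (3 / 14 : ℝ) := by
          rw [div_eq_mul_inv, mul_comm, Real.mul_rpow (by norm_num) (by positivity),
            ← Real.rpow_mul hN0.le]
          norm_num
      _ ≤ 2 * (N : ℝ) ^ (3 / 14 : ℝ) := by
          apply mul_le_mul_of_nonneg_right _ (by positivity)
          calc (2 : ℝ) ^ (3 / 7 : ℝ) ≤ (2 : ℝ) ^ (1 : ℝ) :=
                Real.rpow_le_rpow_of_exponent_le (by norm_num) (by norm_num)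
            _ = 2 := Real.rpow_one _
  have h4 : extreme N ≤ 2 * (N : ℝ) ^ (11 / 14 : ℝ) := by
    unfold extreme
    calc (N : ℝ) ^ (4 / 7 : ℝ) * Real.log N ^ (3 / 7 : ℝ)
        ≤ (N : ℝ) ^ (4 / 7 : ℝ) * (2 * (N : ℝ) ^ (3 / 14 : ℝ)) :=
          mul_le_mul_of_nonneg_left h2 (by positivity)
      _ = 2 * ((N : ℝ) ^ (4 / 7 : ℝ) * (N : ℝ) ^ (3 / 14 : ℝ)) := by ring
      _ = 2 * (N : ℝ) ^ (11 / 14 : ℝ) := by
          rw [← Real.rpow_add hN0]
          norm_num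
  have hext : 0 ≤ extreme N := by unfold extreme; positivity
  have h5 : (1 : ℝ) ≤ (N : ℝ) ^ (11 / 14 : ℝ) := Real.one_le_rpow hN1' (by norm_num)
  calc B * extreme N + 1 ≤ |B| * (2 * (N : ℝ) ^ (11 / 14 : ℝ)) + (N : ℝ) ^ (11 / 14 : ℝ) := by
        have h6 : B * extreme N ≤ |B| * extreme N :=
          mul_le_mul_of_nonneg_right (le_abs_self B) hext
        have h7 : |B| * extreme N ≤ |B| * (2 * (N : ℝ) ^ (11 / 14 : ℝ)) :=
          mul_le_mul_of_nonneg_left h4 (abs_nonneg B)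
        linarith
    _ = (2 * |B| + 1) * (N : ℝ) ^ (11 / 14 : ℝ) := by ring
    _ ≤ (N : ℝ) ^ (3 / 14 : ℝ) * (N : ℝ) ^ (11 / 14 : ℝ) :=
        mul_le_mul_of_nonneg_right hN (by positivity)
    _ = N := by
        rw [← Real.rpow_add hN0]
        norm_num

theorem ev_exp {c δ : ℝ} (hc : 0 < c) (hδ : 0 < δ) {M : ℝ} (hM : 0 < M) :
    ∀ᶠ N : ℕ in Filter.atTop, Real.exp (-(c * (N : ℝ) ^ δ)) ≤ (N : ℝ) ^ (-M) := by
  have h1 := (isLittleO_log_rpow_atTop hδ).bound (show 0 < c / M by positivity)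
  have h2 := tendsto_natCast_atTop_atTop (R := ℝ) |>.eventually h1
  filter_upwards [h2, Filter.eventually_ge_atTop 1] with N hN hN1
  have hN1' : (1 : ℝ) ≤ N := by exact_mod_cast hN1
  have hN0 : (0 : ℝ) < N := by linarith
  rw [Real.norm_of_nonneg (Real.log_nonneg hN1'), Real.norm_of_nonneg (by positivity)] at hN
  rw [Real.rpow_def_of_pos hN0 (-M)]
  apply Real.exp_le_exp.mpr
  have h3 : M * Real.log N ≤ M * (c / M * (N : ℝ) ^ δ) := mul_le_mul_of_nonneg_left hN hM.le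
  have h4 : M * (c / M * (N : ℝ) ^ δ) = c * (N : ℝ) ^ δ := by field_simp
  linarith

/-- the union bound -/
theorem four_events {μ : Measure (Z2.edgeSet → Bool)} [IsProbabilityMeasure μ]
    {E A B C D : Set (Z2.edgeSet → Bool)} (h : ∀ ω, ω ∉ A → ω ∉ B → ω ∉ C → ω ∉ D → ω ∈ E)
    {ε : ℝ} (hA : μ.real A ≤ ε) (hB : μ.real B ≤ ε) (hC : μ.real C ≤ ε) (hD : μ.real D ≤ ε) :
    1 - 4 * ε ≤ μ.real E := by
  have h1 : (Set.univ : Set (Z2.edgeSet → Bool)) ⊆ E ∪ (A ∪ (B ∪ (C ∪ D))) := by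
    intro ω _
    by_cases h1 : ω ∈ A
    · exact Or.inr (Or.inl h1)
    by_cases h2 : ω ∈ B
    · exact Or.inr (Or.inr (Or.inl h2))
    by_cases h3 : ω ∈ C
    · exact Or.inr (Or.inr (Or.inr (Or.inl h3)))
    by_cases h4 : ω ∈ D
    · exact Or.inr (Or.inr (Or.inr (Or.inr h4)))
    exact Or.inl (h ω h1 h2 h3 h4)
  have h2 : (1 : ℝ) ≤ μ.real E + (μ.real A + (μ.real B + (μ.real C + μ.real D))) := by
    calc (1 : ℝ) = μ.real Set.univ := by simp
      _ ≤ μ.real (E ∪ (A ∪ (B ∪ (C ∪ D)))) := measureReal_mono h1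
      _ ≤ _ := by
          refine (measureReal_union_le _ _).trans ?_
          gcongr
          refine (measureReal_union_le _ _).trans ?_
          gcongr
          refine (measureReal_union_le _ _).trans ?_
          gcongr
          exact measureReal_union_le _ _
  linarith

theorem extremes {A : ℝ} (hA : 4 / 7 < A) (K : ℝ) : ∃ c C : ℝ, 0 < c ∧ 0 < C ∧
    ∃ N₀ : ℕ, ∀ N : ℕ, N₀ ≤ N → ∀ (a : ℤ) (w : ℕ), (N : ℝ) ^ A ≤ w → (w : ℝ) ≤ (N : ℝ) ^ K →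
      1 - (N : ℝ) ^ (-K) ≤ (law N).real {ω | Extremes c C N a w ω} := by
  obtain ⟨c0, C0, hc0, hC0, hmain⟩ := four
  obtain ⟨δ, hδ⟩ : ∃ δ : ℝ, δ = A - 4 / 7 := ⟨_, rfl⟩
  have hδ0 : 0 < δ := by rw [hδ]; linarith
  obtain ⟨M, hM⟩ : ∃ M : ℝ, M = |K| + 1 := ⟨_, rfl⟩
  have hM0 : 0 < M := by rw [hM]; positivity
  have hMK : K + 1 ≤ M := by rw [hM]; linarith [le_abs_self K]
  obtain ⟨c, hc⟩ : ∃ c : ℝ, c = (δ / 2 / C0) ^ (3 / 7 : ℝ) := ⟨_, rfl⟩
  obtain ⟨C, hC⟩ : ∃ C : ℝ, C = ((2 * M + 1) / c0) ^ (3 / 7 : ℝ) := ⟨_, rfl⟩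
  have hcp : 0 < c := by rw [hc]; positivity
  have hCp : 0 < C := by rw [hC]; positivity
  have hc7 : C0 * c ^ (7 / 3 : ℝ) = δ / 2 := by
    rw [hc, ← Real.rpow_mul (by positivity)]
    norm_num
    field_simp
  have hC7 : c0 * C ^ (7 / 3 : ℝ) = 2 * M + 1 := by
    rw [hC, ← Real.rpow_mul (by positivity)]
    norm_num
    field_simp
  have hev : ∀ᶠ N : ℕ in Filter.atTop, 2 ^ 12 ≤ N ∧ (C0 : ℝ) ≤ N ∧
      4 * c * extreme N + 1 ≤ N ∧ C * extreme N + 1 ≤ N ∧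
      Real.exp (-(c0 * (N : ℝ) ^ (δ / 2))) ≤ (N : ℝ) ^ (-M) := by
    filter_upwards [Filter.eventually_ge_atTop (2 ^ 12),
      (tendsto_natCast_atTop_atTop (R := ℝ)).eventually_ge_atTop C0, ev_small (4 * c),
      ev_small C, ev_exp hc0 (half_pos hδ0) hM0] with N h1 h2 h3 h4 h5
    exact ⟨h1, h2, h3, h4, h5⟩
  obtain ⟨N₀, hN₀⟩ := Filter.eventually_atTop.mp hev
  refine ⟨c, C, hcp, hCp, N₀, ?_⟩
  intro N hN a w hw1 hw2
  obtain ⟨hN12, hNC, hN4, hN5, hNe⟩ := hN₀ N hN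
  obtain ⟨-, -, h3, h4⟩ := hmain N hN12
  have hN1' : (1 : ℝ) ≤ N := by exact_mod_cast (le_trans (by norm_num) hN12 : 1 ≤ N)
  have hN0 : (0 : ℝ) < N := by linarith
  obtain ⟨D, hD⟩ : ∃ D : ℝ, D = (N : ℝ) ^ (4 / 7 : ℝ) := ⟨_, rfl⟩
  have hD0 : 0 < D := by rw [hD]; positivity
  have hD1 : 1 ≤ D := by rw [hD]; exact Real.one_le_rpow hN1' (by norm_num)
  have hlog : 0 ≤ Real.log N := Real.log_nonneg hN1'
  have hext : extreme N = D * Real.log N ^ (3 / 7 : ℝ) := by rw [hD]; rfl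
  have hext0 : 0 ≤ extreme N := by rw [hext]; positivity
  rw [← hD] at h3 h4
  have hwD : D ≤ w := by
    rw [hD]
    exact (Real.rpow_le_rpow_of_exponent_le hN1' hA.le).trans hw1
  have hwδ : (N : ℝ) ^ δ ≤ w / D := by
    rw [le_div_iff₀ hD0, hD, ← Real.rpow_add hN0]
    refine le_trans (le_of_eq ?_) hw1
    congr 1
    rw [hδ]; ring
  obtain ⟨h0, hh0⟩ : ∃ h0 : ℕ, h0 = ⌊c * extreme N⌋₊ := ⟨_, rfl⟩
  obtain ⟨h1, hh1⟩ : ∃ h1 : ℕ, h1 = ⌈C * extreme N⌉₊ := ⟨_, rfl⟩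
  have hh0r : (h0 : ℝ) ≤ c * extreme N := by rw [hh0]; exact Nat.floor_le (by positivity)
  have hh1r : C * extreme N ≤ h1 := by rw [hh1]; exact Nat.le_ceil _
  have hh1N : h1 ≤ N := by
    have h5 : (h1 : ℝ) < C * extreme N + 1 := by
      rw [hh1]; exact Nat.ceil_lt_add_one (by positivity)
    have h6 : (h1 : ℝ) < N := by linarith
    exact_mod_cast h6.le
  have hh0N : 4 * h0 ≤ N := by
    have h5 : (4 : ℝ) * h0 ≤ N := by linarith
    exact_mod_cast h5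
  -- the lower scale
  have hlow : Real.exp (-(c0 * (w / D) * Real.exp (-(C0 * ((h0 : ℝ) / D) ^ (7 / 3 : ℝ))))) ≤
      (N : ℝ) ^ (-M) := by
    refine le_trans (Real.exp_le_exp.mpr ?_) hNe
    have h5 : ((h0 : ℝ) / D) ^ (7 / 3 : ℝ) ≤ c ^ (7 / 3 : ℝ) * Real.log N := by
      have h6 : (h0 : ℝ) / D ≤ c * Real.log N ^ (3 / 7 : ℝ) := by
        rw [div_le_iff₀ hD0]
        calc (h0 : ℝ) ≤ c * extreme N := hh0r
          _ = c * Real.log N ^ (3 / 7 : ℝ) * D := by rw [hext]; ring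
      calc ((h0 : ℝ) / D) ^ (7 / 3 : ℝ) ≤ (c * Real.log N ^ (3 / 7 : ℝ)) ^ (7 / 3 : ℝ) :=
            Real.rpow_le_rpow (by positivity) h6 (by norm_num)
        _ = c ^ (7 / 3 : ℝ) * Real.log N := by
            rw [Real.mul_rpow hcp.le (by positivity), ← Real.rpow_mul hlog]
            norm_num
    have h6 : (N : ℝ) ^ (-(δ / 2)) ≤ Real.exp (-(C0 * ((h0 : ℝ) / D) ^ (7 / 3 : ℝ))) := by
      rw [Real.rpow_def_of_pos hN0]
      apply Real.exp_le_exp.mpr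
      have h7 := mul_le_mul_of_nonneg_left h5 hC0.le
      have h8 : C0 * (c ^ (7 / 3 : ℝ) * Real.log N) = δ / 2 * Real.log N := by
        rw [← mul_assoc, hc7]
      linarith
    have h7 : c0 * (N : ℝ) ^ (δ / 2) ≤
        c0 * (w / D) * Real.exp (-(C0 * ((h0 : ℝ) / D) ^ (7 / 3 : ℝ))) := by
      calc c0 * (N : ℝ) ^ (δ / 2) = c0 * (N : ℝ) ^ δ * (N : ℝ) ^ (-(δ / 2)) := by
            rw [mul_assoc, ← Real.rpow_add hN0]
            congr 2
            ring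
        _ ≤ c0 * (w / D) * Real.exp (-(C0 * ((h0 : ℝ) / D) ^ (7 / 3 : ℝ))) :=
            mul_le_mul (mul_le_mul_of_nonneg_left hwδ hc0.le) h6 (by positivity)
              (by positivity)
    linarith
  -- the upper scale
  have hup : C0 * (w / D) * Real.exp (-(c0 * ((h1 : ℝ) / D) ^ (7 / 3 : ℝ))) ≤
      (N : ℝ) ^ (-M) := by
    have h5 : C ^ (7 / 3 : ℝ) * Real.log N ≤ ((h1 : ℝ) / D) ^ (7 / 3 : ℝ) := by
      have h6 : C * Real.log N ^ (3 / 7 : ℝ) ≤ (h1 : ℝ) / D := by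
        rw [le_div_iff₀ hD0]
        calc C * Real.log N ^ (3 / 7 : ℝ) * D = C * extreme N := by rw [hext]; ring
          _ ≤ h1 := hh1r
      calc C ^ (7 / 3 : ℝ) * Real.log N = (C * Real.log N ^ (3 / 7 : ℝ)) ^ (7 / 3 : ℝ) := by
            rw [Real.mul_rpow hCp.le (by positivity), ← Real.rpow_mul hlog]
            norm_num
        _ ≤ ((h1 : ℝ) / D) ^ (7 / 3 : ℝ) :=
            Real.rpow_le_rpow (by positivity) h6 (by norm_num)
    have h6 : Real.exp (-(c0 * ((h1 : ℝ) / D) ^ (7 / 3 : ℝ))) ≤ (N : ℝ) ^ (-(2 * M + 1)) := by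
      rw [Real.rpow_def_of_pos hN0]
      apply Real.exp_le_exp.mpr
      have h7 := mul_le_mul_of_nonneg_left h5 hc0.le
      have h8 : c0 * (C ^ (7 / 3 : ℝ) * Real.log N) = (2 * M + 1) * Real.log N := by
        rw [← mul_assoc, hC7]
      linarith
    have h7 : (w : ℝ) / D ≤ (N : ℝ) ^ M := by
      refine (div_le_self (by positivity) hD1).trans (hw2.trans ?_)
      exact Real.rpow_le_rpow_of_exponent_le hN1' (by linarith)
    calc C0 * (w / D) * Real.exp (-(c0 * ((h1 : ℝ) / D) ^ (7 / 3 : ℝ)))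
        ≤ N * (N : ℝ) ^ M * (N : ℝ) ^ (-(2 * M + 1)) :=
          mul_le_mul (mul_le_mul hNC h7 (by positivity) hN0.le) h6 (Real.exp_pos _).le
            (by positivity)
      _ = (N : ℝ) ^ (-M) := by
          nth_rewrite 1 [← Real.rpow_one (N : ℝ)]
          rw [← Real.rpow_add hN0, ← Real.rpow_add hN0]
          congr 1
          ring
  have hprob : IsProbabilityMeasure (law N) := by unfold law; infer_instance
  have h5 := four_events (μ := law N) (E := {ω | Extremes c C N a w ω})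
    (A := {ω | ¬ Reaches N a w h0 ω}) (B := {ω | Bridge N a w h0 ω})
    (C := {ω | Reaches N a w h1 ω}) (D := {ω | ¬ Bridge N a w h1 ω}) (ε := (N : ℝ) ^ (-M))
    ?_ (((h3 a w h0 hwD).2 hh0N).trans hlow)
    (((h4 a w h0 hwD (by omega)).2 hh0N).trans hlow)
    (((h3 a w h1 hwD).1).trans hup) (((h4 a w h1 hwD hh1N).1).trans hup)
  · refine le_trans ?_ h5
    have h6 : 4 * (N : ℝ) ^ (-M) ≤ (N : ℝ) ^ (-K) := by
      have h7 : (4 : ℝ) ≤ N := by
        exact_mod_cast (le_trans (by norm_num) hN12 : 4 ≤ N)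
      calc 4 * (N : ℝ) ^ (-M) ≤ (N : ℝ) * (N : ℝ) ^ (-M) :=
            mul_le_mul_of_nonneg_right h7 (by positivity)
        _ = (N : ℝ) ^ (1 + -M) := by
            rw [Real.rpow_add hN0, Real.rpow_one]
        _ ≤ (N : ℝ) ^ (-K) := Real.rpow_le_rpow_of_exponent_le hN1' (by linarith)
    linarith
  · intro ω hA1 hB1 hC1 hD1
    have hA2 : Reaches N a w h0 ω := by
      by_contra h
      exact hA1 h
    have hD2 : Bridge N a w h1 ω := by
      by_contra h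
      exact hD1 h
    refine ⟨fun h hh => ?_, fun h hh => ?_⟩
    · have h6 : h ≤ h0 := by rw [hh0]; exact Nat.le_floor hh
      exact ⟨reaches_anti h6 hA2, fun hb => hB1 (bridge_mono h6 hb)⟩
    · have h6 : h1 ≤ h := by rw [hh1]; exact Nat.ceil_le.mpr hh
      exact ⟨fun hr => hC1 (reaches_anti h6 hr), bridge_mono h6 hD2⟩

/-- **The front of percolation in a gradient on the square lattice.** -/
theorem result :
    (∃ c C : ℝ, 0 < c ∧ 0 < C ∧ ∀ N : ℕ, 2 ^ 12 ≤ N →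
      (∀ x y : ℤ, -(N : ℤ) ≤ 2 * y → y ≤ 0 →
        c * (max (|(y : ℝ)| / N) ((N : ℝ) ^ (-(3 / 7) : ℝ))) ^ (5 / 36 : ℝ) ≤
          (law N).real {ω | (x, y) ∈ ground N ω} ∧
        (law N).real {ω | (x, y) ∈ ground N ω} ≤
          C * (max (|(y : ℝ)| / N) ((N : ℝ) ^ (-(3 / 7) : ℝ))) ^ (5 / 36 : ℝ)) ∧
      (∀ x y : ℤ, 0 ≤ y →
        (4 * y ≤ N → c * (N : ℝ) ^ (-(5 / 84) : ℝ) *
          Real.exp (-(C * ((y : ℝ) / (N : ℝ) ^ (4 / 7 : ℝ)) ^ (7 / 3 : ℝ))) ≤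
            (law N).real {ω | (x, y) ∈ ground N ω}) ∧
        (law N).real {ω | (x, y) ∈ ground N ω} ≤ C * (N : ℝ) ^ (-(5 / 84) : ℝ) *
          Real.exp (-(c * ((y : ℝ) / (N : ℝ) ^ (4 / 7 : ℝ)) ^ (7 / 3 : ℝ)))) ∧
      (∀ (a : ℤ) (w h : ℕ), (N : ℝ) ^ (4 / 7 : ℝ) ≤ w →
        (law N).real {ω | Reaches N a w h ω} ≤ C * (w / (N : ℝ) ^ (4 / 7 : ℝ)) *
          Real.exp (-(c * ((h : ℝ) / (N : ℝ) ^ (4 / 7 : ℝ)) ^ (7 / 3 : ℝ))) ∧
        (4 * h ≤ N → (law N).real {ω | ¬ Reaches N a w h ω} ≤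
          Real.exp (-(c * (w / (N : ℝ) ^ (4 / 7 : ℝ)) *
            Real.exp (-(C * ((h : ℝ) / (N : ℝ) ^ (4 / 7 : ℝ)) ^ (7 / 3 : ℝ))))))) ∧
      (∀ (a : ℤ) (w h : ℕ), (N : ℝ) ^ (4 / 7 : ℝ) ≤ w → h ≤ N →
        (law N).real {ω | ¬ Bridge N a w h ω} ≤ C * (w / (N : ℝ) ^ (4 / 7 : ℝ)) *
          Real.exp (-(c * ((h : ℝ) / (N : ℝ) ^ (4 / 7 : ℝ)) ^ (7 / 3 : ℝ))) ∧
        (4 * h ≤ N → (law N).real {ω | Bridge N a w h ω} ≤
          Real.exp (-(c * (w / (N : ℝ) ^ (4 / 7 : ℝ)) *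
            Real.exp (-(C * ((h : ℝ) / (N : ℝ) ^ (4 / 7 : ℝ)) ^ (7 / 3 : ℝ)))))))) ∧
    (∀ A : ℝ, 4 / 7 < A → ∀ K : ℝ, ∃ c C : ℝ, 0 < c ∧ 0 < C ∧ ∃ N₀ : ℕ, ∀ N : ℕ, N₀ ≤ N →
      ∀ (a : ℤ) (w : ℕ), (N : ℝ) ^ A ≤ w → (w : ℝ) ≤ (N : ℝ) ^ K →
        1 - (N : ℝ) ^ (-K) ≤ (law N).real {ω | Extremes c C N a w ω}) :=
  ⟨four, fun _ hA K => extremes hA K⟩

end Pool.Agent.Results.MP_6bd702_pr.GradientFront
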