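import Pool.Agent.Y993.LL.Zip6

/-!
# Zipf's law for the cluster perimeters (interface loops) of critical bond percolation

Critical bond percolation on `ℤ²`, `p = 1/2`. The interface loops are the closed lattice paths which
trace the boundaries of the open clusters (the outer perimeters and the boundaries of the holes; the
boundary of a hole of an open cluster is the outer perimeter of a dual cluster).

A state of an interface is a pair `σ = (v, corner)`: a vertex `v` (on the right of the interface) and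
one of the four faces at `v` (on the left of the interface). The edge examined at `σ` starts at `v`
along this face; if it is open the interface follows it to its other end, if it is closed the
interface turns around `v` to the next face (`nxt`). `loop F σ` is the set of all the states visited
by the interface from `σ` when `F` is the set of the open edges, its number of elements is the number
of steps of the closed path.

`loops n F` is the set of the loops whose vertices are all in the box `[-n, n]²`, `cntL n ℓ F` is the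
number of those with at least `ℓ` steps, and `kth n k F` is the number of steps of the `k`-th longest
loop in the box (`0` if there are fewer than `k` loops).

Definitions: `sqLattice`, `bondLaw`, `hlf` (`= 1/2`), `opn ω` (the set of the open edges) in
`Pool.Agent.H974R2.{Model,Infinite}`; `St`, `nxt`, `orb` in `Pool.Agent.H984R3.Per.Defs`; `loop`,
`loops`, `cntL`, `kth` in `Pool.Agent.Y993.LL.{Loop,Count,Zip6}`.

The two-arm probabilities, the separation of arms and the lower bound in blocks are those of the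
starting files (`Pool.Agent.H985R3`, `H984R3`, `H342R2`, `H12R2`); the law of a single loop is in
`MP_b3e76a_pr.LoopLaw`.
-/

set_option autoImplicit false

namespace Pool.Agent.Results.MP_6bd702_pr.LoopZipf

open MeasureTheory H974 H984P Pool.Agent.Y993.LL

/-- **Zipf's law for the interface loops in a box.** There are constants `c, K > 0` such that:
(1) the mean number of loops with at least `ℓ` steps in the box `[-n, n]²` is at most
`K n ^ 2 ℓ ^ (-8/7)`, and (2) at least `c n ^ 2 ℓ ^ (-8/7)` if `ℓ ≤ c n ^ (7/4)`;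
(3) for all `Λ ≥ 1` and `n ≥ 1`, with probability at least `1 - K Λ ^ (-1/2)`, for all `ℓ ≥ 1`
simultaneously, the number of loops with at least `ℓ` steps is at most `Λ n ^ 2 ℓ ^ (-8/7)`, and at
least `n ^ 2 ℓ ^ (-8/7) / Λ` if `ℓ ≤ n ^ (7/4) / Λ`;
(4) with probability at least `1 - K Λ ^ (-1/2)`, for all `1 ≤ k ≤ (n / Λ) ^ 2` simultaneously, the
number of steps of the `k`-th longest loop is between `(n ^ 2 / k) ^ (7/8) / Λ` and
`Λ (n ^ 2 / k) ^ (7/8)`. -/
theorem result : ∃ c K : ℝ, 0 < c ∧ 0 < K ∧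
    (∀ n ℓ : ℕ, 1 ≤ n → 1 ≤ ℓ → ∫ ω, (cntL n ℓ (opn ω) : ℝ) ∂(bondLaw hlf) ≤
      K * ((n:ℝ) ^ 2 * (ℓ:ℝ) ^ (-(8/7:ℝ)))) ∧
    (∀ n ℓ : ℕ, 1 ≤ ℓ → (ℓ:ℝ) ≤ c * (n:ℝ) ^ (7/4:ℝ) →
      c * ((n:ℝ) ^ 2 * (ℓ:ℝ) ^ (-(8/7:ℝ))) ≤ ∫ ω, (cntL n ℓ (opn ω) : ℝ) ∂(bondLaw hlf)) ∧
    (∀ (Λ : ℝ) (n : ℕ), 1 ≤ Λ → 1 ≤ n →
      1 - K * Λ ^ (-(1/2:ℝ)) ≤ (bondLaw hlf).real {ω | ∀ ℓ : ℕ, 1 ≤ ℓ →
        (cntL n ℓ (opn ω) : ℝ) ≤ Λ * ((n:ℝ) ^ 2 * (ℓ:ℝ) ^ (-(8/7:ℝ))) ∧
        ((ℓ:ℝ) ≤ (n:ℝ) ^ (7/4:ℝ) / Λ →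
          (n:ℝ) ^ 2 * (ℓ:ℝ) ^ (-(8/7:ℝ)) / Λ ≤ (cntL n ℓ (opn ω) : ℝ))}) ∧
    (∀ (Λ : ℝ) (n : ℕ), 1 ≤ Λ → 1 ≤ n →
      1 - K * Λ ^ (-(1/2:ℝ)) ≤ (bondLaw hlf).real {ω | ∀ k : ℕ, 1 ≤ k → Λ ^ 2 * k ≤ (n:ℝ) ^ 2 →
        ((n:ℝ) ^ 2 / k) ^ (7/8:ℝ) / Λ ≤ (kth n k (opn ω) : ℝ) ∧
        (kth n k (opn ω) : ℝ) ≤ Λ * ((n:ℝ) ^ 2 / k) ^ (7/8:ℝ)}) :=
  zipf_main

end Pool.Agent.Results.MP_6bd702_pr.LoopZipf
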