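import Pool.Agent.Y995.LG.Top
import Pool.Agent.Y977.LGF.Fast
import Pool.Agent.Y995.LG.Uni

/-!
# The outer perimeter of the largest critical percolation cluster in its natural parametrisation

Critical bond percolation on `ℤ²` in the box `Λ_n = {0, …, n}²`: `F` is the set of open edges,
uniformly distributed on the subsets of `edges n`, and `Largest n F v` says that the cluster of `v`
has the largest Euclidean diameter (`Pool/Agent/H342R2/Per/Plain.lean`). The closed lattice path
(the interface) around this cluster, which traces the boundary of the unbounded component of its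
complement, is divided by `n`, run at constant speed on `[0, 1]`, and `T` is its number of steps
divided by `n ^ (7/4)` (`Nat n F v (f, T)` below). We consider the law of the pair `(f, T)` in
`X = C([0, 1], ℂ) × ℝ`, without any identification of curves; `H342L.lawOf n f` is the law of `f F`.

The result: (1) these laws are relatively compact. (2) For every subsequential limit, almost surely:
the limit curve is closed, `T > 0`, and the curve spends no time on the boundary of the square;
the Hausdorff measure with the gauge function `r ^ (7/4) (log log (1/r)) ^ (1/8)` of the image of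
EVERY set `S` of times is between `c T |S|` and `C T |S|` with universal constants, so that this is
the exact gauge of the perimeter and its gauge measure is its natural time, and the
`7/4`-dimensional Hausdorff measure of the perimeter is zero; for EVERY set `E` of times at which
the curve is in the open square, the dimension of the image of `E` is `7/4` times the dimension of
`E`; the times at which the curve is at a double point in the open square have dimension `3/7`;
and the fast times (displacements of order `θ h ^ (4/7) (log (1/h)) ^ (3/7)`) in every time interval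
have dimension between `1 - C' θ ^ (7/3)` and `1 - c' θ ^ (7/3)`.

The proof is a transfer from the exploration paths of countably many small rectangles: almost
surely every time at which the limit curve is in the open square is in the interior of an arc which
is (up to a translation, and with the same natural time) an arc of a limit of exploration paths.

Other definitions: `Pool/Agent/H342R3/Lim/{Defs,Law}.lean` (`pt`, `lawOf`),
`Pool/Agent/H342R3/Tig/Defs.lean` (`poly`), `Pool/Agent/H984R3/Per/Defs.lean` (states of the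
lattice path, `face`, `orb`), `Pool/Agent/H984R4/NP/Model.lean` (`X`).

Parts of the proof (folders `LG`, `LGF`) are by helpers 185, 259, 260, 381, 431, 495, 500, 523,
584, 891, 945, 977. It uses the starting files `LimitCurves` and `PerimeterTail`, the result
`DoublePoints` of this folder, and the results `HausdorffGauge` of `MP_216314_pr` and `FastTimes` of
`MP_b3e76a_pr` on exploration paths.
-/

set_option autoImplicit false

namespace Pool.Agent.Results.MP_6bd702_pr.NaturalPerimeter

open H342P.Plain H342L H984P H984N MeasureTheory Filter Topology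
open scoped ENNReal

/-- `p = (f, T)`: `f` is the closed lattice path which traces the boundary of the unbounded
component of the complement of the cluster of `v`, divided by `n` and with constant speed on
`[0, 1]`, and `T` is its number of steps divided by `n ^ (7/4)`. The path starts at a vertex `σ.1` of
the cluster with the face `face σ` of the unbounded component on its left; at each step it follows
the next edge (in clockwise order) if this edge is open, and turns clockwise around the vertex
otherwise, until it comes back to the initial state for the first time. -/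
def IsNatural (n : ℕ) (F : Finset Edge) (v : ℤ × ℤ) (p : X) : Prop :=
  ∃ (σ : St) (N : ℕ), 0 < N ∧ σ.1 ∈ cluster F v ∧ Outer F v (face σ) ∧
    orb (↑F) σ N = σ ∧ (∀ j, 0 < j → j < N → orb (↑F) σ j ≠ σ) ∧
    p = (H342T.poly (fun j => pt n (orb (↑F) σ j).1) N, (N : ℝ) / (n : ℝ) ^ (7/4 : ℝ))

/-- The gauge function `r ^ (7/4) (log log (1/r)) ^ (1/8)`. -/
noncomputable def gauge (r : ℝ≥0∞) : ℝ≥0∞ :=
  ENNReal.ofReal (r.toReal ^ (7/4 : ℝ) * Real.log (Real.log (1 / r.toReal)) ^ (1/8 : ℝ))

/-- The open unit square. -/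
def openSquare : Set ℂ := {z | 0 < z.re ∧ z.re < 1 ∧ 0 < z.im ∧ z.im < 1}

/-- `z` is a double point of the closed curve `f`: it is visited at two times `s < t` without being
constant on one of the two arcs `[s, t]`, `[0, s] ∪ [t, 1]` between them. -/
def Double (f : C(unitInterval, ℂ)) (z : ℂ) : Prop :=
  ∃ s t : unitInterval, s < t ∧ f s = z ∧ f t = z ∧
    (∃ u : unitInterval, (s < u ∧ u < t) ∧ f u ≠ z) ∧
    ∃ u : unitInterval, (u < s ∨ t < u) ∧ f u ≠ z

/-- `u` is a `θ`-fast time of `p = (f, T)`: for arbitrarily small `h > 0` there is a time `v` with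
`T |v - u| ≤ h` and `dist (f v) (f u) ≥ θ h ^ (4/7) (log (1/h)) ^ (3/7)`. -/
def Fast (θ : ℝ) (p : X) (u : unitInterval) : Prop :=
  ∃ᶠ h : ℝ in 𝓝[>] 0, ∃ v : unitInterval, p.2 * |(v : ℝ) - u| ≤ h ∧
    θ * (h ^ (4/7 : ℝ) * Real.log (1 / h) ^ (3/7 : ℝ)) ≤ dist (p.1 v) (p.1 u)

theorem result :
    (∀ (n : ℕ) (F : Finset Edge) (v : ℤ × ℤ), 0 < n → F ⊆ edges n → v ∈ box n →
      ∃ p, IsNatural n F v p) ∧
    ∃ c C c' C' θ₀ : ℝ, 0 < c ∧ 0 < C ∧ 0 < c' ∧ 0 < C' ∧ 0 < θ₀ ∧ C' * θ₀ ^ (7/3 : ℝ) < 1 ∧
    ∀ (sel : (n : ℕ) → Finset Edge → ℤ × ℤ) (f : (n : ℕ) → Finset Edge → X),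
      (∀ n F, 0 < n → F ⊆ edges n → Largest n F (sel n F)) →
      (∀ n F, 0 < n → F ⊆ edges n → IsNatural n F (sel n F) (f n F)) →
      (∀ k : ℕ → ℕ, Tendsto k atTop atTop → ∃ (φ : ℕ → ℕ) (μ : ProbabilityMeasure X),
        StrictMono φ ∧ Tendsto (fun i => lawOf (k (φ i)) (f (k (φ i)))) atTop (𝓝 μ)) ∧
      ∀ (k : ℕ → ℕ), Tendsto k atTop atTop → ∀ μ : ProbabilityMeasure X,
        Tendsto (fun i => lawOf (k i) (f (k i))) atTop (𝓝 μ) →
        ∀ᵐ p ∂(μ : Measure X), p.1 0 = p.1 1 ∧ 0 < p.2 ∧ (∀ t, p.1 t ∈ closure openSquare) ∧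
          volume {t : unitInterval | p.1 t ∉ openSquare} = 0 ∧
          (∀ S : Set unitInterval,
            ENNReal.ofReal (c * p.2) * volume S ≤ Measure.mkMetric gauge (p.1 '' S) ∧
            Measure.mkMetric gauge (p.1 '' S) ≤ ENNReal.ofReal (C * p.2) * volume S) ∧
          Measure.hausdorffMeasure (7/4) (Set.range p.1) = 0 ∧
          (∀ E : Set unitInterval, (∀ t ∈ E, p.1 t ∈ openSquare) →
            dimH (p.1 '' E) = 7 / 4 * dimH E) ∧
          dimH {t : unitInterval | p.1 t ∈ openSquare ∧ Double p.1 (p.1 t)} = 3 / 7 ∧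
          ∀ θ : ℝ, 0 < θ → θ ≤ θ₀ → ∀ s t : unitInterval, s < t →
            ENNReal.ofReal (1 - C' * θ ^ (7/3 : ℝ)) ≤
              dimH {u | u ∈ Set.Icc s t ∧ p.1 u ∈ openSquare ∧ Fast θ p u} ∧
            dimH {u | u ∈ Set.Icc s t ∧ p.1 u ∈ openSquare ∧ Fast θ p u} ≤
              ENNReal.ofReal (1 - c' * θ ^ (7/3 : ℝ)) := by
  refine ⟨fun n F v hn hF hv => ?_, ?_⟩
  · obtain ⟨c, σ, N, h1, h2, h3, h4, h5, -⟩ :=
      (Pool.Agent.Results.MP_6bd702_pr.LimitCurves.result.1 n F v hn hF hv).1
    exact ⟨_, σ, N, h1, h2, h3, h4, h5, rfl⟩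
  obtain ⟨c, C, c', C', θ0, hc, hC, hc', hC', hθ0, hCθ, h⟩ := Pool.Agent.Y995.LG.top
    (Pool.Agent.Y995.LG.uni Pool.Agent.Y995.LG.arc Pool.Agent.Y995.LG.cov)
    (Pool.Agent.Y977.LG.fast Pool.Agent.Y995.LG.arc Pool.Agent.Y995.LG.cov)
  refine ⟨c, C, c', C', θ0, hc, hC, hc', hC', hθ0, hCθ, fun sel f h1 h2 => ?_⟩
  have hsel : Pool.Agent.Y995.LG.Sel sel f := ⟨h1, h2⟩
  refine ⟨fun k hk => Pool.Agent.Y995.LG.tight0 sel f hsel k hk, fun k hk μ hμ => ?_⟩
  filter_upwards [h sel f hsel k hk μ hμ] with p hp
  obtain ⟨g1, g2, g3, g4, g5, g6, g7, g8⟩ := hp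
  refine ⟨g1, g2, g4, g3, g5.2, ?_, g6, ?_, fun θ hθ hθ' s t hst => g8 θ hθ hθ' s t hst⟩
  · refine Pool.Agent.Y995.HG.haus_zero ?_
    have h3 := (g5.2 Set.univ).2
    rw [Set.image_univ] at h3
    exact ne_top_of_le_ne_top (ENNReal.mul_ne_top ENNReal.ofReal_ne_top (measure_ne_top _ _)) h3
  · have e : {t : unitInterval | p.1 t ∈ openSquare ∧ Double p.1 (p.1 t)} =
        {t : unitInterval | p.1 t ∈ Pool.Agent.Y995.LG.dbl p.1 ∩ Pool.Agent.Y995.LG.sq} := by
      ext t
      exact ⟨fun h => ⟨h.2, h.1⟩, fun h => ⟨h.2, h.1⟩⟩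
    rw [e]
    exact g7

end Pool.Agent.Results.MP_6bd702_pr.NaturalPerimeter
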