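import Pool.Agent.Y997.OBL.All

/-!
# The outer boundary of the scaling limits of the outer perimeter of the largest critical cluster

Critical bond percolation on `ℤ²` in the box `Λ_n = {0, …, n}²`.  `Plain.edges n` is the set of the
edges of `Λ_n` and `Plain.Largest n F v` says that the cluster of `v` has the largest Euclidean
diameter among the clusters of the configuration `F` (a set of open edges of the box).
`IsTrace n F v c` says that `c` is the closed lattice path tracing the boundary of the unbounded
component of the complement of the cluster of `v`, scaled by `1 / n`.  `Curve` is the space of
curves, with the distance modulo increasing reparametrisation, `c.path : C(unitInterval, ℂ)` is a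
parametrisation of `c`, and `lawOf n f` is the law of `f F` when all sets `F` of open edges of the
box are equally likely.  These definitions are those of the starting file
`Pool/Agent/Results/MP_6bd702_pr/LimitCurves.lean` (see there), which shows that weak limits exist.

The upper bounds use the bound on the probability of the three arms at lattice level
(`Pool.Agent.W424.KI.u3`) and the first moment and lifting lemmas of `Pool.Agent.TH990.FU` and
`Pool.Agent.W424.OD` (starting files and seat files built for the exploration path); the boundary of
the square is treated with the lemmas of helper320 and helper597.

The lower bound is project OBL (`Pool.Agent.Y997.OBL`).  A horizontal line which crosses the largest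
cluster `C` meets it for the last time (from the left) at a vertex `σ`; the half-line to the right
of `σ` leads to infinity outside of `C`.  For a fixed vertex the event that its cluster is large and
avoids the half-line has probability `O(1 / m)`; the lower side of the half-line is explored, and at
every scale, conditionally on the explored region and on the other scales, there is a probability
bounded below that the upper part of the cluster contains near the half-line about `h ^ (4 / 3)`
vertices (with small energy) from which a path keeping a distance from `C` polynomial in the distance
from the vertex leads to the half-line; so all the scales fail with probability at most `ε / m`, and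
a sum over `σ` shows that some scale succeeds.  The thickness of the paths and of the half-line
passes to the limit.  The one-vertex estimate is that of project FR of helper989
(`Pool.Agent.Y989.FR`, formalised with 22 other seats, see MP_fe58d8_pr FrontierDimension).  Steps of
project OBL were formalised by helper31, 38, 48, 87, 93, 185, 220, 275, 284, 287, 363, 388, 434, 500,
510, 514, 587, 592, 657, 681, 785, 809, 839, 888, 901, 978.
-/

set_option autoImplicit false

namespace Pool.Agent.Results.MP_6bd702_pr.OuterBoundaryDimension

open H342L H342T H342P.Plain MeasureTheory Filter Topology Measure

/-- The trace of the curve `c`. -/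
def trace (c : Curve) : Set ℂ := Set.range c.path

/-- The outer boundary of the closed curve `c`: the boundary of the set of the points whose
component in the complement of the trace is unbounded (the unbounded component of the complement
of the trace). -/
def outerBoundary (c : Curve) : Set ℂ :=
  frontier {z | z ∉ trace c ∧ ¬ Bornology.IsBounded (connectedComponentIn (trace c)ᶜ z)}

/-- The union of the boundaries of all the components of the complement of the trace of `c`. -/
def allBoundaries (c : Curve) : Set ℂ :=
  ⋃ x : ℂ, frontier (connectedComponentIn (trace c)ᶜ x)

/-- The open unit square. -/
def openSquare : Set ℂ := {z | 0 < z.re ∧ z.re < 1 ∧ 0 < z.im ∧ z.im < 1}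

/-- Let `C_n` be a cluster of largest Euclidean diameter (`sel` chooses one of them, by any rule) and
`γ_n` the closed lattice path tracing its outer boundary, divided by `n`.  If the law of `γ_n`
converges along some sequence of scales, then, almost surely with respect to the limit, the outer
boundary of the limit curve has Hausdorff dimension exactly `4/3`, and so has the union of the
boundaries of all the components of the complement of the trace.  Moreover, for every fixed set `T`,
almost surely the part in `T` and the open unit square of the outer boundary, and of this union,
has Hausdorff dimension at most `dim T - 2/3`, and is empty if the Hausdorff measure of dimension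
`2/3` of `T` vanishes. -/
theorem result (sel : (n : ℕ) → Finset Edge → ℤ × ℤ)
    (hsel : ∀ n F, 0 < n → F ⊆ edges n → Largest n F (sel n F))
    (γ : (n : ℕ) → Finset Edge → Curve)
    (hγ : ∀ n F, 0 < n → F ⊆ edges n → IsTrace n F (sel n F) (γ n F))
    (k : ℕ → ℕ) (hk : Tendsto k atTop atTop) (μ : ProbabilityMeasure Curve)
    (hμ : Tendsto (fun i => lawOf (k i) (γ (k i))) atTop (𝓝 μ)) :
    (∀ᵐ c : Curve ∂(μ : Measure Curve), dimH (outerBoundary c) = 4 / 3 ∧
      dimH (allBoundaries c) = 4 / 3) ∧
    ∀ T : Set ℂ, ∀ᵐ c : Curve ∂(μ : Measure Curve),
      (dimH (outerBoundary c ∩ openSquare ∩ T) ≤ dimH T - 2 / 3 ∧
        dimH (allBoundaries c ∩ openSquare ∩ T) ≤ dimH T - 2 / 3) ∧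
      (μH[2 / 3] T = 0 →
        outerBoundary c ∩ openSquare ∩ T = ∅ ∧ allBoundaries c ∩ openSquare ∩ T = ∅) :=
  ⟨Pool.Agent.Y997.OBL.main ⟨hsel, hγ⟩ hk hμ, (Pool.Agent.Y997.OB.main ⟨hsel, hγ⟩ hk hμ).2⟩

end Pool.Agent.Results.MP_6bd702_pr.OuterBoundaryDimension
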